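import Pool.Agent.Helper17.R8.Sheet

/-! Rank eight (MP_798d7d_nt), row LINZ: linear approximation of an integral polynomial. -/

set_option autoImplicit false

namespace Pool.Helper17.R8

theorem evd (P : MvPolynomial (Fin 8) ℤ) (x y : Fin 8 → ℤ) (h : ℤ) (hxy : ∀ i, h ∣ x i - y i) :
    h ∣ MvPolynomial.eval x P - MvPolynomial.eval y P := by
  induction P using MvPolynomial.induction_on with
  | C a => simp
  | add P Q hP hQ =>
    rw [map_add, map_add]
    have h1 := dvd_add hP hQ
    have h2 : MvPolynomial.eval x P + MvPolynomial.eval x Q -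
        (MvPolynomial.eval y P + MvPolynomial.eval y Q) =
        (MvPolynomial.eval x P - MvPolynomial.eval y P) +
          (MvPolynomial.eval x Q - MvPolynomial.eval y Q) := by ring
    rw [h2]
    exact h1
  | mul_X P j hP =>
    rw [map_mul, map_mul, MvPolynomial.eval_X, MvPolynomial.eval_X]
    have h2 : MvPolynomial.eval x P * x j - MvPolynomial.eval y P * y j =
        (MvPolynomial.eval x P - MvPolynomial.eval y P) * x j +
          MvPolynomial.eval y P * (x j - y j) := by ring
    rw [h2]
    exact dvd_add (Dvd.dvd.mul_right hP _) (Dvd.dvd.mul_left (hxy j) _)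

theorem st_LINZ : ST_LINZ := by
  intro P p b
  induction P using MvPolynomial.induction_on with
  | C a =>
    refine ⟨fun _ => 0, fun x y h _ _ _ => ?_⟩
    simp
  | add P Q hP hQ =>
    obtain ⟨L, hL⟩ := hP
    obtain ⟨M, hM⟩ := hQ
    refine ⟨fun i => L i + M i, fun x y h h1 h2 h3 => ?_⟩
    have h4 := dvd_add (hL x y h h1 h2 h3) (hM x y h h1 h2 h3)
    have h5 : MvPolynomial.eval x (P + Q) - MvPolynomial.eval y (P + Q) -
        ∑ i, (L i + M i) * (x i - y i) =
        (MvPolynomial.eval x P - MvPolynomial.eval y P - ∑ i, L i * (x i - y i)) +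
          (MvPolynomial.eval x Q - MvPolynomial.eval y Q - ∑ i, M i * (x i - y i)) := by
      have h6 : ∑ i, (L i + M i) * (x i - y i) =
          ∑ i, L i * (x i - y i) + ∑ i, M i * (x i - y i) := by
        rw [← Finset.sum_add_distrib]
        exact Finset.sum_congr rfl fun i _ => by ring
      rw [map_add, map_add, h6]
      ring
    rw [h5]
    exact h4
  | mul_X P j hP =>
    obtain ⟨L, hL⟩ := hP
    refine ⟨fun i => L i * b j + (if i = j then MvPolynomial.eval b P else 0),
      fun x y h h1 h2 h3 => ?_⟩
    have h4 := hL x y h h1 h2 h3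
    have h5 : ∑ i, (L i * b j + (if i = j then MvPolynomial.eval b P else 0)) * (x i - y i) =
        (∑ i, L i * (x i - y i)) * b j + MvPolynomial.eval b P * (x j - y j) := by
      rw [Finset.sum_mul]
      have h6 : MvPolynomial.eval b P * (x j - y j) =
          ∑ i, (if i = j then MvPolynomial.eval b P * (x i - y i) else 0) := by
        rw [Finset.sum_ite_eq' Finset.univ j, if_pos (Finset.mem_univ j)]
      rw [h6, ← Finset.sum_add_distrib]
      refine Finset.sum_congr rfl fun i _ => ?_
      split_ifs <;> ring
    have h7 : MvPolynomial.eval x (P * MvPolynomial.X j) - MvPolynomial.eval y (P * MvPolynomial.X j) -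
        ((∑ i, L i * (x i - y i)) * b j + MvPolynomial.eval b P * (x j - y j)) =
        (MvPolynomial.eval x P - MvPolynomial.eval y P - ∑ i, L i * (x i - y i)) * x j +
          ((x j - b j) * ∑ i, L i * (x i - y i) +
          (MvPolynomial.eval y P - MvPolynomial.eval b P) * (x j - y j)) := by
      rw [map_mul, map_mul, MvPolynomial.eval_X, MvPolynomial.eval_X]
      ring
    rw [h5, h7]
    have h8 : p ∣ x j - b j := by
      have h9 := dvd_add (h1.trans (h3 j)) (h2 j)
      rwa [sub_add_sub_cancel] at h9
    exact dvd_add (Dvd.dvd.mul_right h4 _) (dvd_add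
      (mul_dvd_mul h8 (Finset.dvd_sum fun i _ => Dvd.dvd.mul_left (h3 i) _))
      (mul_dvd_mul (evd P y b p h2) (h3 j)))

end Pool.Helper17.R8
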