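import Pool.Agent.Helper17.R8.Sheet

/-! Rank eight (MP_798d7d_nt), row INJ: the two invariants, as polynomials in the parameter of the
pencil, determine the member (a Jacobian modulo 29). -/

set_option autoImplicit false

namespace Pool.Helper17.R8

namespace INJaux

open MvPolynomial

/-- the coordinates `e 2, .., e 8` -/
def evv {R : Type*} [CommRing R] (x : Fin 8 → R) : ℕ → R
  | 2 => x 0
  | 3 => x 1
  | 4 => x 2
  | 5 => x 3
  | 6 => x 4
  | 7 => x 5
  | 8 => x 6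
  | _ => 0

/-- the eight functions -/
def G {R : Type*} [CommRing R] (r : Fin 8) (x : Fin 8 → R) : R :=
  if (r : ℕ) < 4 then fI (evv x) (x 7 + (((r : ℕ) % 4 : ℕ) : R))
  else fJ (evv x) (x 7 + (((r : ℕ) % 4 : ℕ) : R))

theorem map_G {R S : Type*} [CommRing R] [CommRing S] (φ : R →+* S) (r : Fin 8) (x : Fin 8 → R) :
    φ (G r x) = G r (fun i => φ (x i)) := by
  unfold G
  split_ifs <;>
    simp only [fI, fJ, q4, q3, q2, q1, q0, evv, map_add, map_sub, map_mul, map_pow, map_ofNat,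
      map_natCast]

/-- the eight polynomials -/
noncomputable def PG (r : Fin 8) : MvPolynomial (Fin 8) ℤ := G r (fun i => X i)

theorem eval_PG (r : Fin 8) (x : Fin 8 → ℤ) : eval x (PG r) = G r x := by
  unfold PG
  rw [map_G]
  simp only [eval_X]

/-- the coordinates of the base -/
def bv : Fin 8 → ℤ := ![-444, -160, 53454, -16320, -1588076, 2310240, 3828825, 0]

/-- the Jacobian modulo 29 -/
def Jac : Fin 8 → Fin 8 → ℤ :=
  ![![16, 22, 18, 14, 18, 11, 0, 18], ![26, 20, 28, 27, 5, 4, 13, 4],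
    ![10, 1, 22, 6, 15, 26, 28, 8], ![24, 23, 0, 9, 19, 19, 16, 1],
    ![19, 22, 25, 22, 11, 11, 19, 14], ![0, 15, 6, 15, 24, 12, 16, 5],
    ![17, 4, 10, 7, 24, 13, 11, 28], ![7, 2, 10, 4, 14, 28, 24, 15]]

/-- its inverse -/
def Jin : Fin 8 → Fin 8 → ℤ :=
  ![![15, 13, 16, 14, 0, 0, 0, 0], ![14, 9, 14, 6, 26, 27, 4, 25],
    ![23, 3, 4, 18, 17, 25, 18, 11], ![13, 9, 11, 2, 8, 13, 19, 8],
    ![2, 5, 12, 1, 12, 12, 22, 7], ![24, 10, 11, 2, 8, 6, 14, 12],
    ![26, 3, 15, 5, 16, 5, 21, 16], ![2, 24, 26, 10, 28, 0, 22, 12]]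

theorem jac_num : ∀ r i : Fin 8,
    (G r (fun j => bv j + if j = i then 29 else 0) - G r bv - 29 * Jac r i) % (29 * 29) = 0 := by
  decide +kernel

theorem jin_num : ∀ j i : Fin 8,
    (∑ r, Jin j r * Jac r i - (if i = j then 1 else 0)) % 29 = 0 := by
  decide +kernel

theorem step (hL : ST_LINZ) (x y : Fin 8 → ℤ) (hG : ∀ r, G r x = G r y)
    (hy : ∀ i, (29 : ℤ) ∣ y i - bv i) (h : ℤ) (hh : h ≠ 0) (h29 : (29 : ℤ) ∣ h)
    (hxy : ∀ i, h ∣ x i - y i) (i : Fin 8) : 29 * h ∣ x i - y i := by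
  choose L hLL using fun r : Fin 8 => hL (PG r) 29 bv
  -- the gradient modulo 29
  have hJ : ∀ r i, (29 : ℤ) ∣ L r i - Jac r i := by
    intro r i
    have h1 := hLL r (fun j => bv j + if j = i then 29 else 0) bv 29 (dvd_refl _)
      (fun j => by rw [sub_self]; exact dvd_zero _) (fun j => by
        rw [add_sub_cancel_left]
        split_ifs
        · exact dvd_refl _
        · exact dvd_zero _)
    rw [eval_PG, eval_PG] at h1
    have h2 : ∑ j, L r j * ((bv j + if j = i then 29 else 0) - bv j) = 29 * L r i := by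
      have h3 : ∀ j, L r j * ((bv j + if j = i then 29 else 0) - bv j) =
          if j = i then 29 * L r j else 0 := by
        intro j
        split_ifs <;> ring
      rw [Finset.sum_congr rfl fun j _ => h3 j, Finset.sum_ite_eq' Finset.univ i,
        if_pos (Finset.mem_univ i)]
    rw [h2] at h1
    have h4 : (29 : ℤ) * 29 ∣ G r (fun j => bv j + if j = i then 29 else 0) - G r bv -
        29 * Jac r i := Int.dvd_of_emod_eq_zero (jac_num r i)
    have h5 := dvd_sub h4 h1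
    have h6 : G r (fun j => bv j + if j = i then 29 else 0) - G r bv - 29 * Jac r i -
        (G r (fun j => bv j + if j = i then 29 else 0) - G r bv - 29 * L r i) =
        29 * (L r i - Jac r i) := by ring
    rw [h6] at h5
    exact (mul_dvd_mul_iff_left (by norm_num : (29 : ℤ) ≠ 0)).1 h5
  choose d hd using hxy
  -- the eight equations
  have hE : ∀ r, (29 : ℤ) ∣ ∑ i, Jac r i * d i := by
    intro r
    have h1 := hLL r x y h h29 hy (fun i => ⟨d i, hd i⟩)
    rw [eval_PG, eval_PG, hG r, sub_self, zero_sub, dvd_neg] at h1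
    have h2 : ∑ i, L r i * (x i - y i) = h * ∑ i, L r i * d i := by
      rw [Finset.mul_sum]
      exact Finset.sum_congr rfl fun i _ => by rw [hd i]; ring
    rw [h2, mul_comm (29 : ℤ) h] at h1
    have h3 : (29 : ℤ) ∣ ∑ i, L r i * d i := (mul_dvd_mul_iff_left hh).1 h1
    have h4 : ∑ i, Jac r i * d i = ∑ i, L r i * d i - ∑ i, (L r i - Jac r i) * d i := by
      rw [← Finset.sum_sub_distrib]
      exact Finset.sum_congr rfl fun i _ => by ring
    rw [h4]
    exact dvd_sub h3 (Finset.dvd_sum fun i _ => Dvd.dvd.mul_right (hJ r i) _)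
  have hdi : (29 : ℤ) ∣ d i := by
    have h1 : (29 : ℤ) ∣ ∑ r, Jin i r * ∑ j, Jac r j * d j :=
      Finset.dvd_sum fun r _ => Dvd.dvd.mul_left (hE r) _
    have h2 : ∑ r, Jin i r * ∑ j, Jac r j * d j =
        d i + ∑ j, (∑ r, Jin i r * Jac r j - (if j = i then 1 else 0)) * d j := by
      have h3 : ∑ r, Jin i r * ∑ j, Jac r j * d j = ∑ j, (∑ r, Jin i r * Jac r j) * d j := by
        have h4 : ∀ r, Jin i r * ∑ j, Jac r j * d j = ∑ j, Jin i r * Jac r j * d j := by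
          intro r
          rw [Finset.mul_sum]
          exact Finset.sum_congr rfl fun j _ => by ring
        rw [Finset.sum_congr rfl fun r _ => h4 r, Finset.sum_comm]
        exact Finset.sum_congr rfl fun j _ => by rw [Finset.sum_mul]
      have h5 : ∑ j, (∑ r, Jin i r * Jac r j - (if j = i then 1 else 0)) * d j =
          ∑ j, (∑ r, Jin i r * Jac r j) * d j - d i := by
        have h6 : ∀ j, (∑ r, Jin i r * Jac r j - (if j = i then 1 else 0)) * d j =
            (∑ r, Jin i r * Jac r j) * d j - (if j = i then d j else 0) := by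
          intro j
          split_ifs <;> ring
        rw [Finset.sum_congr rfl fun j _ => h6 j, Finset.sum_sub_distrib,
          Finset.sum_ite_eq' Finset.univ i, if_pos (Finset.mem_univ i)]
      rw [h3, h5]
      ring
    rw [h2] at h1
    have h7 : (29 : ℤ) ∣ ∑ j, (∑ r, Jin i r * Jac r j - (if j = i then 1 else 0)) * d j :=
      Finset.dvd_sum fun j _ => Dvd.dvd.mul_right (Int.dvd_of_emod_eq_zero (jin_num i j)) _
    exact (dvd_add_left h7).1 h1
  rw [hd i, mul_comm (29 : ℤ) h]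
  exact mul_dvd_mul_left h hdi

theorem ek_map {R S : Type*} [CommRing R] [CommRing S] (φ : R →+* S) (s : Fin 8 → R) (k : ℕ) :
    φ (ek s k) = ek (fun i => φ (s i)) k := by
  unfold ek
  rw [map_sum]
  exact Finset.sum_congr rfl fun T _ => map_prod _ _ _

theorem ek_mod (s s' : Fin 8 → ℤ) (h : ∀ i, (29 : ℤ) ∣ s i - s' i) (k : ℕ) :
    (29 : ℤ) ∣ ek s k - ek s' k := by
  have h1 : ((ek s k - ek s' k : ℤ) : ZMod 29) = 0 := by
    have h2 := ek_map (Int.castRingHom (ZMod 29)) s k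
    have h3 := ek_map (Int.castRingHom (ZMod 29)) s' k
    have h4 : (fun i => (Int.castRingHom (ZMod 29)) (s i)) =
        fun i => (Int.castRingHom (ZMod 29)) (s' i) := by
      funext i
      have h5 : ((s i - s' i : ℤ) : ZMod 29) = 0 := (ZMod.intCast_zmod_eq_zero_iff_dvd _ 29).2 (h i)
      rw [Int.cast_sub] at h5
      exact sub_eq_zero.1 h5
    rw [h4] at h2
    rw [Int.cast_sub]
    exact sub_eq_zero.2 (h2.trans h3.symm)
  exact (ZMod.intCast_zmod_eq_zero_iff_dvd _ 29).1 h1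

theorem base_ek : ek (ss ub) 2 = -444 ∧ ek (ss ub) 3 = -160 ∧ ek (ss ub) 4 = 53454 ∧
    ek (ss ub) 5 = -16320 ∧ ek (ss ub) 6 = -1588076 ∧ ek (ss ub) 7 = 2310240 ∧
    ek (ss ub) 8 = 3828825 := by
  decide +kernel

theorem MM29 : (29 : ℤ) ∣ MM := by
  unfold MM
  refine Dvd.dvd.mul_left ?_ _
  have h1 : 29 ∣ Nat.factorial QQ := Nat.dvd_factorial (by norm_num) (by unfold QQ; norm_num)
  exact_mod_cast h1

theorem ss_mod {w : Par} (hw : Cong w) (i : Fin 8) : (29 : ℤ) ∣ ss w.1 i - ss ub i := by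
  have h1 : ∀ j, (29 : ℤ) ∣ w.1 j - ub j := fun j => MM29.trans (hw.1 j)
  fin_cases i
  · exact h1 0
  · exact h1 1
  · exact h1 2
  · exact h1 3
  · exact h1 4
  · exact h1 5
  · change (29 : ℤ) ∣ 1 - 1
    norm_num
  · change (29 : ℤ) ∣ -(w.1 0 + w.1 1 + w.1 2 + w.1 3 + w.1 4 + w.1 5 + 1) -
      -(ub 0 + ub 1 + ub 2 + ub 3 + ub 4 + ub 5 + 1)
    have h2 : -(w.1 0 + w.1 1 + w.1 2 + w.1 3 + w.1 4 + w.1 5 + 1) -
        -(ub 0 + ub 1 + ub 2 + ub 3 + ub 4 + ub 5 + 1) =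
        -((w.1 0 - ub 0) + (w.1 1 - ub 1) + (w.1 2 - ub 2) + (w.1 3 - ub 3) + (w.1 4 - ub 4) +
          (w.1 5 - ub 5)) := by ring
    rw [h2, dvd_neg]
    exact dvd_add (dvd_add (dvd_add (dvd_add (dvd_add (h1 0) (h1 1)) (h1 2)) (h1 3)) (h1 4)) (h1 5)

theorem base_inj : ∀ i j : Fin 8, (29 : ℤ) ∣ ss ub i - ss ub j → i = j := by
  decide +kernel

theorem ek_one (s : Fin 8 → ℤ) : ek s 1 = ∑ i, s i := by
  unfold ek
  rw [Finset.powersetCard_one, Finset.sum_map]
  exact Finset.sum_congr rfl fun i _ => Finset.prod_singleton _ _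

theorem ss_sum (u : Fin 6 → ℤ) : ∑ i, ss u i = 0 := by
  rw [Fin.sum_univ_eight]
  simp only [ss, Matrix.cons_val]
  ring

/-- the coordinates of a member -/
def xv (e : ℕ → ℤ) (t : ℤ) : Fin 8 → ℤ := ![e 2, e 3, e 4, e 5, e 6, e 7, e 8, t]

theorem xv_6 (e : ℕ → ℤ) (t : ℤ) : xv e t 6 = e 8 := by
  simp only [xv, Matrix.cons_val]

theorem bv_6 : bv 6 = 3828825 := by
  simp only [bv, Matrix.cons_val]

theorem G_xv (e : ℕ → ℤ) (t : ℤ) (r : Fin 8) : G r (xv e t) =
    if (r : ℕ) < 4 then fI e (t + (((r : ℕ) % 4 : ℕ) : ℤ))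
    else fJ e (t + (((r : ℕ) % 4 : ℕ) : ℤ)) := by
  unfold G
  split_ifs <;>
    simp only [fI, fJ, q4, q3, q2, q1, q0, evv, xv, Matrix.cons_val]

theorem xv_mod {w : Par} (hw : Cong w) (β : ℤ) (hβ : (29 : ℤ) ∣ β) (i : Fin 8) :
    (29 : ℤ) ∣ xv (ek (ss w.1)) β i - bv i := by
  have h1 : ∀ k, (29 : ℤ) ∣ ek (ss w.1) k - ek (ss ub) k := ek_mod _ _ (ss_mod hw)
  obtain ⟨e2, e3, e4, e5, e6, e7, e8⟩ := base_ek
  fin_cases i
  · change (29 : ℤ) ∣ ek (ss w.1) 2 - (-444)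
    rw [← e2]
    exact h1 2
  · change (29 : ℤ) ∣ ek (ss w.1) 3 - (-160)
    rw [← e3]
    exact h1 3
  · change (29 : ℤ) ∣ ek (ss w.1) 4 - 53454
    rw [← e4]
    exact h1 4
  · change (29 : ℤ) ∣ ek (ss w.1) 5 - (-16320)
    rw [← e5]
    exact h1 5
  · change (29 : ℤ) ∣ ek (ss w.1) 6 - (-1588076)
    rw [← e6]
    exact h1 6
  · change (29 : ℤ) ∣ ek (ss w.1) 7 - 2310240
    rw [← e7]
    exact h1 7
  · change (29 : ℤ) ∣ xv (ek (ss w.1)) β 6 - bv 6
    rw [xv_6, bv_6, ← e8]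
    exact h1 8
  · change (29 : ℤ) ∣ β - 0
    rwa [sub_zero]

theorem eq_zero_of_pow {d : ℤ} (h : ∀ k : ℕ, (29 : ℤ) ^ (k + 1) ∣ d) : d = 0 := by
  by_contra hd
  have h1 := Int.natAbs_dvd_natAbs.2 (h d.natAbs)
  have h2 := Nat.le_of_dvd (Int.natAbs_pos.2 hd) h1
  rw [Int.natAbs_pow] at h2
  have h3 : d.natAbs < 29 ^ d.natAbs := Nat.lt_pow_self (by norm_num)
  have h4 : 29 ^ d.natAbs ≤ 29 ^ (d.natAbs + 1) := Nat.pow_le_pow_right (by norm_num) (Nat.le_succ _)
  have h5 : (29 : ℤ).natAbs = 29 := rfl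
  rw [h5] at h2
  omega

end INJaux

open INJaux in
theorem st_INJ (hL : ST_LINZ) (hV : ST_VIE) : ST_INJ := by
  intro w w' hw hw' β hβ hτ
  set e := ek (ss w.1) with he
  set e' := ek (ss w'.1) with he'
  have hG : ∀ r, G r (xv e' β) = G r (xv e 0) := by
    intro r
    rw [G_xv, G_xv]
    split_ifs
    · have := (hτ (((r : ℕ) % 4 : ℕ) : ℤ)).1
      rw [zero_add, add_comm β]
      exact this
    · have := (hτ (((r : ℕ) % 4 : ℕ) : ℤ)).2
      rw [zero_add, add_comm β]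
      exact this
  have hy : ∀ i, (29 : ℤ) ∣ xv e 0 i - bv i := xv_mod hw 0 (dvd_zero _)
  have hx : ∀ i, (29 : ℤ) ∣ xv e' β i - bv i := xv_mod hw' β hβ
  have hk : ∀ k : ℕ, ∀ i, (29 : ℤ) ^ (k + 1) ∣ xv e' β i - xv e 0 i := by
    intro k
    induction k with
    | zero =>
      intro i
      rw [zero_add, pow_one]
      have := dvd_sub (hx i) (hy i)
      rwa [sub_sub_sub_cancel_right] at this
    | succ k ih =>
      intro i
      rw [pow_succ, mul_comm]
      exact step hL _ _ hG hy _ (pow_ne_zero _ (by norm_num)) (dvd_pow_self _ (Nat.succ_ne_zero k))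
        ih i
  have hz : ∀ i, xv e' β i = xv e 0 i := fun i => sub_eq_zero.1 (eq_zero_of_pow fun k => hk k i)
  have z2 : e' 2 = e 2 := hz 0
  have z3 : e' 3 = e 3 := hz 1
  have z4 : e' 4 = e 4 := hz 2
  have z5 : e' 5 = e 5 := hz 3
  have z6 : e' 6 = e 6 := hz 4
  have z7 : e' 7 = e 7 := hz 5
  have z8 : e' 8 = e 8 := by
    have := hz 6
    rwa [xv_6, xv_6] at this
  have z1 : e' 1 = e 1 := by
    rw [he, he', ek_one, ek_one, ss_sum, ss_sum]
  have hprod : ∀ x : ℤ, ∏ i, (x - ss w'.1 i) = ∏ i, (x - ss w.1 i) := by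
    intro x
    rw [hV ℤ (ss w'.1) x, hV ℤ (ss w.1) x, ← he, ← he', z1, z2, z3, z4, z5, z6, z7, z8]
  have hs : ∀ i, ss w.1 i = ss w'.1 i := by
    intro i
    have h1 : ∏ j, (ss w.1 i - ss w'.1 j) = 0 := by
      rw [hprod]
      exact Finset.prod_eq_zero (Finset.mem_univ i) (sub_self _)
    obtain ⟨j, _, hj⟩ := Finset.prod_eq_zero_iff.1 h1
    have h2 : ss w.1 i = ss w'.1 j := sub_eq_zero.1 hj
    have h3 : (29 : ℤ) ∣ ss ub i - ss ub j := by
      have h4 := dvd_sub (ss_mod hw' j) (ss_mod hw i)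
      rw [h2] at h4
      rwa [sub_sub_sub_cancel_left] at h4
    rw [h2, base_inj i j h3]
  funext i
  fin_cases i
  · exact hs 0
  · exact hs 1
  · exact hs 2
  · exact hs 3
  · exact hs 4
  · exact hs 5

end Pool.Helper17.R8
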